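import Mathlib

set_option autoImplicit false

namespace Pool.Agent.Results.MP_eb4cdf_pr.NoBowl

/-- Departure times with unlimited buffers: `D T i j` is the time job `i` leaves station `j`
(both counted from 1, terms with a zero index are 0); `T i j` is the service time of job `i + 1`
at station `j + 1`. -/
noncomputable def D (T : ℕ → ℕ → ℝ) : ℕ → ℕ → ℝ
  | 0, _ => 0
  | _ + 1, 0 => 0
  | i + 1, j + 1 => max (D T (i + 1) j) (D T i (j + 1)) + T i j

/-- The eight equally likely values 60, 61, 62, 63, 64, 65, 66, 71 of the work. -/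
def val (i : Fin 8) : ℕ := if i.val = 7 then 71 else 60 + i.val

/-- Expected makespan for 2 jobs and 3 stations with speeds `s`, when the six works are
independent and uniform on the eight values: the average over all `8 ^ 6` outcomes. -/
noncomputable def F (s : Fin 3 → ℝ) : ℝ :=
  (∑ ω : Fin 2 → Fin 3 → Fin 8,
    D (fun i j => if h : i < 2 ∧ j < 3 then (val (ω ⟨i, h.1⟩ ⟨j, h.2⟩) : ℝ) / s ⟨j, h.2⟩ else 0)
      2 3) / 8 ^ 6

/-- Positive speeds with sum one. -/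
def Simplex (s : Fin 3 → ℝ) : Prop := (∀ j, 0 < s j) ∧ ∑ j, s j = 1

/-- Bowl-shaped allocation for three stations. -/
def Bowl (s : Fin 3 → ℝ) : Prop := s 0 = s 2 ∧ s 0 ≤ s 1

lemma sum3 {α : Type} [Fintype α] (g : (Fin 3 → α) → ℝ) :
    ∑ f, g f = ∑ a, ∑ b, ∑ c, g ![a, b, c] := by
  let e : α × α × α ≃ (Fin 3 → α) :=
    { toFun := fun p => ![p.1, p.2.1, p.2.2]
      invFun := fun f => (f 0, f 1, f 2)
      left_inv := fun p => by simp
      right_inv := fun f => by ext i; fin_cases i <;> simp }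
  rw [← e.sum_comp, Fintype.sum_prod_type]
  refine Finset.sum_congr rfl fun a _ => ?_
  rw [Fintype.sum_prod_type]
  rfl

lemma sum2 {α : Type} [Fintype α] (g : (Fin 2 → α) → ℝ) :
    ∑ f, g f = ∑ a, ∑ b, g ![a, b] := by
  let e : α × α ≃ (Fin 2 → α) :=
    { toFun := fun p => ![p.1, p.2]
      invFun := fun f => (f 0, f 1)
      left_inv := fun p => by simp
      right_inv := fun f => by ext i; fin_cases i <;> simp }
  rw [← e.sum_comp, Fintype.sum_prod_type]
  rfl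

lemma D23 (T : ℕ → ℕ → ℝ) (h : ∀ i j, 0 ≤ T i j) :
    D T 2 3 = T 0 0 + T 1 2 +
      max (T 1 0 + T 1 1) (max (T 0 1 + T 1 1) (T 0 1 + T 0 2)) := by
  have h00 := h 0 0
  have h01 := h 0 1
  have h02 := h 0 2
  have h10 := h 1 0
  simp only [D, max_self, zero_add]
  simp only [max_def]
  split_ifs <;> linarith

noncomputable def M (t u : ℝ) (a b c d : Fin 8) : ℝ :=
  max (val a * t + val b * u) (max (val c * u + val b * u) (val c * u + val d * t))

lemma F_eq (x y : ℝ) (hx : 0 < x) (hy : 0 < y) :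
    F ![x, y, x] = (2 * 8 ^ 5 * 512 * x⁻¹ +
      64 * ∑ c, ∑ d, ∑ a, ∑ b, M x⁻¹ y⁻¹ a b c d) / 8 ^ 6 := by
  unfold F
  rw [div_left_inj' (by norm_num)]
  have key : ∀ ω : Fin 2 → Fin 3 → Fin 8,
      D (fun i j => if h : i < 2 ∧ j < 3 then
        (val (ω ⟨i, h.1⟩ ⟨j, h.2⟩) : ℝ) / ![x, y, x] ⟨j, h.2⟩ else 0) 2 3 =
      val (ω 0 0) * x⁻¹ + val (ω 1 2) * x⁻¹ + M x⁻¹ y⁻¹ (ω 1 0) (ω 1 1) (ω 0 1) (ω 0 2) := by
    intro ω
    rw [D23]
    · simp [M, div_eq_mul_inv]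
    · intro i j
      split_ifs with h
      · refine div_nonneg (by positivity) ?_
        obtain ⟨h1, h2⟩ := h
        interval_cases j <;> simp [hx.le, hy.le]
      · exact le_rfl
  simp only [key]
  rw [sum2]
  simp only [Matrix.cons_val_zero, Matrix.cons_val_one]
  rw [sum3]
  simp only [sum3 (α := Fin 8)]
  simp only [Matrix.cons_val_zero, Matrix.cons_val_one, Matrix.cons_val]
  have hv : ∑ a, (val a : ℝ) = 512 := by
    simp [Fin.sum_univ_succ, val]; norm_num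
  simp only [Finset.sum_add_distrib, Finset.sum_const, Finset.card_univ, Fintype.card_fin,
    nsmul_eq_mul, ← Finset.sum_mul, ← Finset.mul_sum, hv]
  push_cast
  ring

def A (a b c d : Fin 8) : ℕ :=
  if val a ≤ val c ∧ val d ≤ val b then 0
  else if val c + val d < val a + val b then val a
  else if val c + val d = val a + val b then min (val a) (val d) else val d

def B (a b c d : Fin 8) : ℕ :=
  if val a ≤ val c ∧ val d ≤ val b then val c + val b
  else if val c + val d < val a + val b then val b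
  else if val c + val d = val a + val b then (if val a ≤ val d then val b else val c) else val c

def N (a b c d : Fin 8) : ℕ :=
  max (val a * 99 + val b * 100) (max (val c * 100 + val b * 100) (val c * 100 + val d * 99))

lemma sums : (∑ c, ∑ d, ∑ a, ∑ b, A a b c d) + (∑ c, ∑ d, ∑ a, ∑ b, B a b c d) = 536694 ∧
    (∑ c, ∑ d, ∑ a, ∑ b, B a b c d) ≤ 353000 ∧
    (∑ c, ∑ d, ∑ a, ∑ b, N a b c d) = 53483550 := by
  decide +kernel

lemma M_ge (t u : ℝ) (a b c d : Fin 8) : A a b c d * t + B a b c d * u ≤ M t u a b c d := by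
  unfold A B M
  split_ifs with h1 h2 h3 h4
  · push_cast
    refine le_max_of_le_right (le_max_of_le_left ?_)
    linarith
  · exact le_max_left _ _
  · rw [min_eq_left h4]; exact le_max_left _ _
  · rw [min_eq_right (by omega)]
    refine le_max_of_le_right (le_max_of_le_right ?_)
    linarith
  · refine le_max_of_le_right (le_max_of_le_right ?_)
    linarith

lemma M_star (a b c d : Fin 8) :
    M (100 / 299 : ℝ)⁻¹ (99 / 299 : ℝ)⁻¹ a b c d = 299 / 9900 * (N a b c d : ℝ) := by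
  unfold M N
  push_cast
  rw [mul_max_of_nonneg _ _ (by norm_num), mul_max_of_nonneg _ _ (by norm_num)]
  congr 1
  · ring
  · congr 1 <;> ring

lemma e1 : (∑ c, ∑ d, ∑ a, ∑ b, M (100 / 299 : ℝ)⁻¹ (99 / 299 : ℝ)⁻¹ a b c d) =
    299 / 9900 * 53483550 := by
  have s3 : ((∑ c, ∑ d, ∑ a, ∑ b, N a b c d : ℕ) : ℝ) = 53483550 := by
    rw [sums.2.2]; norm_num
  rw [← s3]
  simp only [M_star, Nat.cast_sum, Finset.mul_sum]

lemma e2 (t u : ℝ) : ∃ p q : ℝ, p + q = 536694 ∧ q ≤ 353000 ∧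
    p * t + q * u ≤ ∑ c, ∑ d, ∑ a, ∑ b, M t u a b c d := by
  refine ⟨((∑ c, ∑ d, ∑ a, ∑ b, A a b c d : ℕ) : ℝ), ((∑ c, ∑ d, ∑ a, ∑ b, B a b c d : ℕ) : ℝ),
    ?_, ?_, ?_⟩
  · rw [← Nat.cast_add, sums.1]; norm_num
  · have := (Nat.cast_le (α := ℝ)).mpr sums.2.1
    refine this.trans ?_
    norm_num
  · simp only [Nat.cast_sum, Finset.sum_mul, ← Finset.sum_add_distrib]
    exact Finset.sum_le_sum fun c _ => Finset.sum_le_sum fun d _ =>
      Finset.sum_le_sum fun a _ => Finset.sum_le_sum fun b _ => M_ge _ _ _ _ _ _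

lemma final (x y S : ℝ) (hx : 0 < x) (hy : 0 < y) (hs : x + y + x = 1) (b2 : x ≤ y)
    (h : ∃ p q : ℝ, p + q = 536694 ∧ q ≤ 353000 ∧ p * x⁻¹ + q * y⁻¹ ≤ S) :
    (2 * 8 ^ 5 * 512 * (100 / 299 : ℝ)⁻¹ + 64 * (299 / 9900 * 53483550)) / 8 ^ 6 <
      (2 * 8 ^ 5 * 512 * x⁻¹ + 64 * S) / 8 ^ 6 := by
  obtain ⟨p, q, s1, s2, e⟩ := h
  have hxy : y⁻¹ ≤ x⁻¹ := inv_anti₀ hx b2
  have hy1 : y = 1 - 2 * x := by linarith
  have h3 : 9 ≤ 2 * x⁻¹ + y⁻¹ := by
    have : 2 * x⁻¹ + y⁻¹ - 9 = (3 * x - 1) ^ 2 * 2 / (x * y) := by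
      field_simp
      rw [hy1]; ring
    have : 0 ≤ (3 * x - 1) ^ 2 * 2 / (x * y) := by positivity
    linarith
  rw [div_lt_div_iff_of_pos_right (by norm_num)]
  have h4 : q * (x⁻¹ - y⁻¹) ≤ 353000 * (x⁻¹ - y⁻¹) :=
    mul_le_mul_of_nonneg_right s2 (by linarith)
  have s1' : p = 536694 - q := by linarith
  rw [s1'] at e
  generalize x⁻¹ = t at *
  generalize y⁻¹ = u at *
  norm_num
  nlinarith

theorem result :
    ∃ s' : Fin 3 → ℝ, Simplex s' ∧ ∀ s : Fin 3 → ℝ, Simplex s → Bowl s → F s' < F s := by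
  refine ⟨![100 / 299, 99 / 299, 100 / 299], ⟨?_, ?_⟩, ?_⟩
  · intro j; fin_cases j <;> simp
  · simp [Fin.sum_univ_succ]; norm_num
  · rintro s ⟨hp, hs⟩ ⟨b1, b2⟩
    have hs' : s = ![s 0, s 1, s 0] := by
      ext j; fin_cases j <;> simp [b1]
    rw [Fin.sum_univ_three, ← b1] at hs
    have hx := hp 0
    have hy := hp 1
    rw [hs', F_eq _ _ hx hy, F_eq _ _ (by norm_num) (by norm_num), e1]
    exact final _ _ _ hx hy hs b2 (e2 _ _)

end Pool.Agent.Results.MP_eb4cdf_pr.NoBowl
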